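import Pool.Agent.H739R3.SQ.D
import Pool.Agent.H935R2.PS.Final
import Pool.Agent.H470D4.Star

set_option autoImplicit false

namespace Pool.Agent.Results.MP_f4022e_nt.SequenceBoundFails

open MeasureTheory Filter

/-- `B` is an axis-parallel box contained in `[0,1)^d`: a product of subintervals of `[0,1)` of any
kind (open, closed, half-open; `Set.OrdConnected` subsets of `ℝ` are exactly the intervals). -/
def IsBox {d : ℕ} (B : Set (Fin d → ℝ)) : Prop :=
  ∃ I : Fin d → Set ℝ, (∀ i, (I i).OrdConnected ∧ I i ⊆ Set.Ico 0 1) ∧ B = Set.univ.pi I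

open Classical in
/-- `A_N(B)`: the number of indices `0 ≤ n < N` with `z_n ∈ B`. -/
noncomputable def countIn {d : ℕ} (z : ℕ → Fin d → ℝ) (N : ℕ) (B : Set (Fin d → ℝ)) : ℕ :=
  ((Finset.range N).filter (fun n => z n ∈ B)).card

/-- `D_N`: the (extreme) discrepancy of the first `N` points of the sequence `z`, the supremum of
`|A_N(B) / N - λ(B)|` over all axis-parallel boxes `B` contained in `[0,1)^d`. -/
noncomputable def discrepancy {d : ℕ} (z : ℕ → Fin d → ℝ) (N : ℕ) : ENNReal :=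
  ⨆ (B : Set (Fin d → ℝ)) (_ : IsBox B),
    ENNReal.ofReal |(countIn z N B : ℝ) / N - (volume B).toReal|

lemma disc_le {d : ℕ} {z : ℕ → Fin d → ℝ} {N : ℕ} {E : ℝ} (hN : 0 < N)
    (hz : ∀ n j, 0 ≤ z n j ∧ z n j < 1) (h : H739SQ.SB z N E) :
    discrepancy z N ≤ ENNReal.ofReal (2 ^ d * E / N) := by
  classical
  have hN0 : (0:ℝ) < N := by exact_mod_cast hN
  refine iSup₂_le ?_
  rintro B ⟨I, hI, rfl⟩
  apply ENNReal.ofReal_le_ofReal
  have h1 := H739SQ.all_boxes (fun n j => (hz n j).2) h I hI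
  have h2 : H739SQ.cU z N I = (countIn z N (Set.univ.pi I) : ℝ) := by
    unfold H739SQ.cU countIn
    rw [Finset.card_filter]
    push_cast
    refine Finset.sum_congr rfl fun k _ => ?_
    simp only [Set.mem_univ_pi]
  have h3 : (volume (Set.univ.pi I)).toReal = ∏ j, (volume (I j)).toReal := by
    rw [volume_pi_pi, ENNReal.toReal_prod]
  rw [h2] at h1
  rw [h3]
  have e : (countIn z N (Set.univ.pi I) : ℝ) / N - ∏ j, (volume (I j)).toReal =
      ((countIn z N (Set.univ.pi I) : ℝ) - N * ∏ j, (volume (I j)).toReal) / N := by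
    field_simp
  rw [e, abs_div, abs_of_pos hN0]
  exact div_le_div_of_nonneg_right h1 hN0.le

/-- the growth function `(t / log t) ^ b` -/
lemma ratio_bounds {b : ℕ} (hb : 1 ≤ b) :
    (∀ t : ℝ, 4 ≤ t → (t / Real.log t) ^ b ≤ 1 / 2 * (4 * t / Real.log (4 * t)) ^ b) ∧
    (∀ t s : ℝ, 4 ≤ t → 1 < s → t ≤ 4 * s → (t / Real.log t) ^ b ≤ 4 ^ b * (s / Real.log s) ^ b) ∧
    (∀ s : ℝ, 1 < s → 1 ≤ (s / Real.log s) ^ b) := by
  have he : Real.exp 1 < 4 := lt_trans Real.exp_one_lt_d9 (by norm_num)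
  refine ⟨?_, ?_, ?_⟩
  · intro t ht
    have ht0 : 0 < t := by linarith
    have hl : 0 < Real.log t := Real.log_pos (by linarith)
    have hl4 : 0 < Real.log 4 := Real.log_pos (by norm_num)
    have h4 : Real.log (4 * t) = Real.log 4 + Real.log t := Real.log_mul (by norm_num) ht0.ne'
    have h5 : Real.log 4 ≤ Real.log t := Real.log_le_log (by norm_num) ht
    have h6 : t / Real.log t ≤ 1 / 2 * (4 * t / Real.log (4 * t)) := by
      rw [h4]
      have e : 1 / 2 * (4 * t / (Real.log 4 + Real.log t)) =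
          2 * t / (Real.log 4 + Real.log t) := by ring
      rw [e, div_le_div_iff₀ hl (by linarith)]
      nlinarith
    have h7 : 0 ≤ 4 * t / Real.log (4 * t) := by rw [h4]; positivity
    calc (t / Real.log t) ^ b ≤ (1 / 2 * (4 * t / Real.log (4 * t))) ^ b :=
          pow_le_pow_left₀ (by positivity) h6 b
      _ = (1 / 2) ^ b * (4 * t / Real.log (4 * t)) ^ b := mul_pow _ _ _
      _ ≤ 1 / 2 * (4 * t / Real.log (4 * t)) ^ b := by
          apply mul_le_mul_of_nonneg_right _ (pow_nonneg h7 b)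
          calc ((1:ℝ) / 2) ^ b ≤ (1 / 2) ^ 1 :=
                pow_le_pow_of_le_one (by norm_num) (by norm_num) hb
            _ = 1 / 2 := pow_one _
  · intro t s ht hs hts
    have ht0 : 0 < t := by linarith
    have hs0 : 0 < s := by linarith
    have hl : 0 < Real.log t := Real.log_pos (by linarith)
    have hls : 0 < Real.log s := Real.log_pos hs
    have h1 := Real.log_div_self_antitoneOn (show t ∈ {x | Real.exp 1 ≤ x} by
      simp only [Set.mem_setOf_eq]; linarith) (show 4 * s ∈ {x | Real.exp 1 ≤ x} by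
      simp only [Set.mem_setOf_eq]; linarith) hts
    simp only at h1
    have h4 : Real.log s ≤ Real.log (4 * s) := Real.log_le_log hs0 (by linarith)
    have h2 : t / Real.log t ≤ 4 * (s / Real.log s) := by
      have h3 : Real.log s / (4 * s) ≤ Real.log t / t :=
        (div_le_div_of_nonneg_right h4 (by positivity)).trans h1
      rw [div_le_div_iff₀ (by positivity) ht0] at h3
      have e : 4 * (s / Real.log s) = 4 * s / Real.log s := by ring
      rw [e, div_le_div_iff₀ hl hls]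
      nlinarith
    calc (t / Real.log t) ^ b ≤ (4 * (s / Real.log s)) ^ b :=
          pow_le_pow_left₀ (by positivity) h2 b
      _ = 4 ^ b * (s / Real.log s) ^ b := mul_pow _ _ _
  · intro s hs
    have hls : 0 < Real.log s := Real.log_pos hs
    apply one_le_pow₀
    rw [one_le_div hls]
    have := Real.log_le_sub_one_of_pos (by linarith : 0 < s)
    linarith

/-- sequences in every dimension `d ≥ 2` -/
theorem seq_all (n : ℕ) : ∃ z : ℕ → Fin (n + 2) → ℝ, (∀ k j, 0 ≤ z k j ∧ z k j < 1) ∧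
    ∃ C : ℝ, 0 < C ∧ ∀ N : ℕ, 3 ≤ N → discrepancy z N ≤
      ENNReal.ofReal (C * (Real.log N) ^ (n + 2) / ((Real.log (Real.log N)) ^ (n + 2) * N)) := by
  obtain ⟨C, hC, h⟩ := Pool.Agent.H470D4.star_all n
  obtain ⟨r1, r2, r3⟩ := ratio_bounds (b := n + 2) (by omega)
  obtain ⟨C', hC', z, hz, hzE⟩ := H739SQ.seq_of_sets (d := n + 2)
    (fun t => (t / Real.log t) ^ (n + 2)) (4 ^ (n + 2)) C hC.le (by positivity) r1 r2 r3 h
  refine ⟨z, hz, 2 ^ (n + 2) * (C' + 1), by positivity, fun N hN => ?_⟩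
  refine (disc_le (by omega) hz (hzE N hN)).trans ?_
  apply ENNReal.ofReal_le_ofReal
  have hN0 : (0:ℝ) < N := by exact_mod_cast (by omega : 0 < N)
  have hs1 : 1 < Real.log N := by
    rw [Real.lt_log_iff_exp_lt hN0]
    have h1 := Real.exp_one_lt_d9
    have h2 : (3:ℝ) ≤ N := by exact_mod_cast hN
    linarith
  have hll : 0 < Real.log (Real.log N) := Real.log_pos hs1
  have e : 2 ^ (n + 2) * (C' + 1) * Real.log N ^ (n + 2) / (Real.log (Real.log N) ^ (n + 2) * N) =
      2 ^ (n + 2) * ((C' + 1) * (Real.log N / Real.log (Real.log N)) ^ (n + 2)) / N := by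
    rw [div_pow]
    field_simp
  rw [e]
  apply div_le_div_of_nonneg_right _ hN0.le
  apply mul_le_mul_of_nonneg_left _ (by positivity)
  apply mul_le_mul_of_nonneg_right (by linarith) (by positivity)

/-- the power saving in dimension `2` -/
theorem seq_two : ∃ z : ℕ → Fin 2 → ℝ, (∀ k j, 0 ≤ z k j ∧ z k j < 1) ∧
    ∃ C : ℝ, 0 < C ∧ ∀ N : ℕ, 3 ≤ N → discrepancy z N ≤
      ENNReal.ofReal (C * (Real.log N) ^ ((2:ℝ) - 1 / 800) / N) := by
  obtain ⟨C, hC, h⟩ := Pool.Agent.H935R2.PS.Final.star_explicit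
  obtain ⟨C', hC', z, hz, hzE⟩ := H739SQ.seq_of_sets (d := 2)
    (fun t => t ^ ((2:ℝ) - 1 / 800)) (4 ^ ((2:ℝ) - 1 / 800)) C hC.le (by positivity)
    (fun t ht => by
      rw [Real.mul_rpow (by norm_num) (by linarith)]
      have h1 : (2:ℝ) ≤ 4 ^ ((2:ℝ) - 1 / 800) := by
        calc (2:ℝ) ≤ 4 ^ (1:ℝ) := by norm_num
          _ ≤ 4 ^ ((2:ℝ) - 1 / 800) := Real.rpow_le_rpow_of_exponent_le (by norm_num) (by norm_num)
      have h2 : 0 ≤ t ^ ((2:ℝ) - 1 / 800) := Real.rpow_nonneg (by linarith) _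
      nlinarith)
    (fun t s ht hs hts => by
      rw [← Real.mul_rpow (by norm_num) (by linarith)]
      exact Real.rpow_le_rpow (by linarith) hts (by norm_num))
    (fun s hs => Real.one_le_rpow hs.le (by norm_num)) h
  refine ⟨z, hz, 2 ^ 2 * (C' + 1), by positivity, fun N hN => ?_⟩
  refine (disc_le (by omega) hz (hzE N hN)).trans ?_
  apply ENNReal.ofReal_le_ofReal
  have hN0 : (0:ℝ) < N := by exact_mod_cast (by omega : 0 < N)
  apply div_le_div_of_nonneg_right _ hN0.le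
  have hlog : 0 ≤ Real.log N := Real.log_nonneg (by exact_mod_cast (by omega : 1 ≤ N))
  have h3 : 0 ≤ Real.log N ^ ((2:ℝ) - 1 / 800) := Real.rpow_nonneg hlog _
  nlinarith

/-- the discrepancy is eventually below every multiple of `(log N)^d / N` -/
lemma eventually_lt {d : ℕ} (hd : 1 ≤ d) {D : ℕ → ENNReal} {C : ℝ}
    (h : ∀ N : ℕ, 3 ≤ N → D N ≤
      ENNReal.ofReal (C * (Real.log N) ^ d / ((Real.log (Real.log N)) ^ d * N))) :
    ∀ c : ℝ, 0 < c → ∀ᶠ N : ℕ in atTop, D N < ENNReal.ofReal (c * (Real.log N) ^ d / N) := by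
  intro c hc
  have h1 : Tendsto (fun N : ℕ => (Real.log (Real.log N)) ^ d) atTop atTop :=
    (tendsto_pow_atTop (by omega)).comp
      (Real.tendsto_log_atTop.comp (Real.tendsto_log_atTop.comp tendsto_natCast_atTop_atTop))
  filter_upwards [h1.eventually_gt_atTop (C / c), eventually_ge_atTop 3] with N h2 h3
  refine (h N h3).trans_lt ?_
  have hN0 : (0:ℝ) < N := by exact_mod_cast (by omega : 0 < N)
  have hs1 : 1 < Real.log N := by
    rw [Real.lt_log_iff_exp_lt hN0]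
    have h1 := Real.exp_one_lt_d9
    have h2 : (3:ℝ) ≤ N := by exact_mod_cast h3
    linarith
  have hll : 0 < Real.log (Real.log N) := Real.log_pos hs1
  rw [ENNReal.ofReal_lt_ofReal_iff (by positivity)]
  rw [div_lt_div_iff₀ (by positivity) hN0]
  rw [div_lt_iff₀ hc] at h2
  have h4 : 0 < Real.log N ^ d * N := by positivity
  nlinarith

/-- **The conjectured lower bound for the discrepancy of infinite sequences fails in every dimension
`d ≥ 2`.** For every `d ≥ 2` there is a sequence in `[0,1)^d` with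
`D_N ≤ C (log N)^d / ((log log N)^d N)` for all `N ≥ 3`; its discrepancy is eventually below
`c (log N)^d / N` for every `c > 0`. In dimension `2` there is a sequence in `[0,1)^2` with
`D_N ≤ C (log N)^(2 - 1/800) / N` for all `N ≥ 3`. Hence for no `d ≥ 2` there is a constant `c > 0`
such that all sequences in `[0,1)^d` satisfy `D_N ≥ c (log N)^d / N` for infinitely many `N`. -/
theorem result :
    (∀ d : ℕ, 2 ≤ d → ∃ z : ℕ → Fin d → ℝ, (∀ n i, z n i ∈ Set.Ico (0:ℝ) 1) ∧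
      (∃ C : ℝ, 0 < C ∧ ∀ N : ℕ, 3 ≤ N → discrepancy z N ≤
        ENNReal.ofReal (C * (Real.log N) ^ d / ((Real.log (Real.log N)) ^ d * N))) ∧
      (∀ c : ℝ, 0 < c → ∀ᶠ N : ℕ in atTop,
        discrepancy z N < ENNReal.ofReal (c * (Real.log N) ^ d / N))) ∧
    (∃ z : ℕ → Fin 2 → ℝ, (∀ n i, z n i ∈ Set.Ico (0:ℝ) 1) ∧ ∃ C : ℝ, 0 < C ∧
      ∀ N : ℕ, 3 ≤ N → discrepancy z N ≤
        ENNReal.ofReal (C * (Real.log N) ^ ((2:ℝ) - 1 / 800) / N)) ∧
    (∀ d : ℕ, 2 ≤ d → ¬ ∃ c : ℝ, 0 < c ∧ ∀ z : ℕ → Fin d → ℝ,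
      (∀ n i, z n i ∈ Set.Ico (0:ℝ) 1) →
        ∃ᶠ N : ℕ in atTop, ENNReal.ofReal (c * (Real.log N) ^ d / N) ≤ discrepancy z N) := by
  have key : ∀ d : ℕ, 2 ≤ d → ∃ z : ℕ → Fin d → ℝ, (∀ n i, z n i ∈ Set.Ico (0:ℝ) 1) ∧
      (∃ C : ℝ, 0 < C ∧ ∀ N : ℕ, 3 ≤ N → discrepancy z N ≤
        ENNReal.ofReal (C * (Real.log N) ^ d / ((Real.log (Real.log N)) ^ d * N))) ∧
      (∀ c : ℝ, 0 < c → ∀ᶠ N : ℕ in atTop,
        discrepancy z N < ENNReal.ofReal (c * (Real.log N) ^ d / N)) := by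
    intro d hd
    obtain ⟨n, rfl⟩ : ∃ n, d = n + 2 := ⟨d - 2, by omega⟩
    obtain ⟨z, hz, C, hC, h⟩ := seq_all n
    exact ⟨z, fun k i => ⟨(hz k i).1, (hz k i).2⟩, ⟨C, hC, h⟩, eventually_lt (by omega) h⟩
  refine ⟨key, ?_, ?_⟩
  · obtain ⟨z, hz, C, hC, h⟩ := seq_two
    exact ⟨z, fun k i => ⟨(hz k i).1, (hz k i).2⟩, C, hC, h⟩
  · rintro d hd ⟨c, hc, h⟩
    obtain ⟨z, hz, -, h2⟩ := key d hd
    have h3 := h z hz
    have h4 := h2 c hc
    obtain ⟨N, h5, h6⟩ := (h3.and_eventually h4).exists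
    exact absurd h6 (not_lt.2 h5)

end Pool.Agent.Results.MP_f4022e_nt.SequenceBoundFails
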